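import Pool.Agent.H230R3.GD.Real

set_option autoImplicit false
set_option linter.unusedSectionVars false
set_option linter.unusedVariables false
open Set Metric Filter Topology

namespace Pool.Agent.H230R3.GD

/-- an orthonormal set in a separable space is countable -/
theorem countable_of_orthonormal {H : Type*} [NormedAddCommGroup H] [InnerProductSpace ℝ H]
    [TopologicalSpace.SeparableSpace H] {W : Set H} (hW : Orthonormal ℝ ((↑) : W → H)) :
    Countable W := by
  refine Pairwise.countable_of_isOpen_disjoint (ι := W) (s := fun x => ball (x : H) (1 / 2)) ?_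
    (fun i => isOpen_ball) (fun i => ⟨(i : H), mem_ball_self (by norm_num)⟩)
  intro x y hxy
  refine ball_disjoint_ball ?_
  have h1 : ‖(x : H) - y‖ ^ 2 = 2 := by
    rw [@norm_sub_sq_real, hW.1 x, hW.1 y, hW.2 hxy]; norm_num
  rw [dist_eq_norm]
  by_contra hc
  push Not at hc
  nlinarith [norm_nonneg ((x : H) - y)]

theorem not_finiteDimensional_of {μ : V → ℝ} (hμ : μ ∈ PInf) {H : Type*} [NormedAddCommGroup H]
    [InnerProductSpace ℝ H] {T : V →+ H} {K : ℝ} (hK : 0 < K) (h1 : ∀ v, ‖T v‖ ≤ μ v)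
    (h2 : ∀ v, μ v ≤ K * ‖T v‖) : ¬ FiniteDimensional ℝ H := by
  intro hfd
  obtain ⟨-, X, i1, i2, ⟨-, S, hS, hSd⟩, hX⟩ := hμ
  obtain ⟨R, f, hR, hf, hf2⟩ := exists_seq_norm_le_one_le_norm_sub (𝕜 := ℝ) hX
  have hv : ∀ n, ∃ v : V, dist (f n) (S v) < 1 / 4 := fun n =>
    Metric.denseRange_iff.1 hSd (f n) (1 / 4) (by norm_num)
  choose v hv using hv
  have hb : ∀ n, T (v n) ∈ closedBall (0 : H) (R + 1 / 4) := by
    intro n
    rw [mem_closedBall_zero_iff]
    refine (h1 _).trans ?_
    rw [← hS]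
    have h3 := hv n
    rw [dist_eq_norm] at h3
    have h4 := norm_le_norm_add_norm_sub (f n) (S (v n))
    linarith [hf n]
  have hsep : ∀ m n, m ≠ n → 1 / 2 ≤ K * dist (T (v m)) (T (v n)) := by
    intro m n hmn
    rw [dist_eq_norm, ← map_sub]
    refine le_trans ?_ (h2 _)
    rw [← hS, map_sub, ← dist_eq_norm]
    have h3 : 1 ≤ ‖f m - f n‖ := hf2 hmn
    rw [← dist_eq_norm] at h3
    have h5 := dist_triangle4 (f m) (S (v m)) (S (v n)) (f n)
    have h6 := hv m
    have h7 := hv n
    rw [dist_comm] at h7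
    linarith
  have : ProperSpace H := FiniteDimensional.proper_real H
  obtain ⟨a, -, ψ, hψ, hlim⟩ := (isCompact_closedBall (0 : H) (R + 1 / 4)).tendsto_subseq hb
  have hc := hlim.cauchySeq
  obtain ⟨N, hN⟩ := Metric.cauchySeq_iff'.1 hc (1 / (2 * K)) (by positivity)
  have h8 := hN (N + 1) (by omega)
  have h9 := hsep (ψ (N + 1)) (ψ N) (hψ.injective.ne (by omega))
  simp only [Function.comp] at h8
  rw [lt_div_iff₀ (by positivity)] at h8
  linarith

theorem codes_of {t : ℝ} (ht : 0 < t) {s : ℕ → ℝ} (hst : Tendsto s atTop (𝓝 t))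
    {μ : V → ℝ} (hP : μ ∈ PInf) (hμ : μ ∈ Cs t) (hn : ∀ k, μ ∉ Cs (s k)) : Codes μ (Xt t) := by
  classical
  obtain ⟨G, φ, hsym, hv⟩ := hμ
  obtain ⟨H, i1, i2, i3, T, w, hTd, hT, hw, hwt⟩ := realize ht.le hsym (fun v => (hv v).1)
    (fun v => (hv v).2.1)
  have hμT : ∀ v, μ v = ‖T v‖ + |inner ℝ w (T v)| := fun v => by
    rw [hT, hw]; exact (hv v).2.2
  have hwn : ‖w‖ = t := by
    by_contra hcon
    have hlt : ‖w‖ < t := lt_of_le_of_ne hwt hcon
    obtain ⟨k, hk⟩ := (hst.eventually (lt_mem_nhds hlt)).exists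
    exact hn k (mem_Cs_of_gram T w hk.le hμT)
  have : TopologicalSpace.SeparableSpace H := TopologicalSpace.SeparableSpace.of_denseRange T hTd
  have hinf : ¬ FiniteDimensional ℝ H := by
    refine not_finiteDimensional_of hP (T := T) (K := 1 + t) (by linarith) (fun v => ?_) fun v => ?_
    · rw [hμT]; linarith [abs_nonneg (inner ℝ w (T v))]
    · rw [hμT]
      have := abs_real_inner_le_norm w (T v)
      rw [hwn] at this
      linarith
  -- Hilbert basis
  have he : ‖(1 / t) • w‖ = 1 := by
    rw [norm_smul, hwn, Real.norm_eq_abs, abs_of_pos (by positivity)]; field_simp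
  have horth : Orthonormal ℝ ((↑) : ({(1 / t) • w} : Set H) → H) := by
    refine ⟨fun i => ?_, fun i j hij => ?_⟩
    · have := i.2
      rw [mem_singleton_iff] at this
      rw [this, he]
    · exact absurd (Subsingleton.elim i j) hij
  obtain ⟨W, b, hsub, hb⟩ := horth.exists_hilbertBasis_extension
  have hbo : Orthonormal ℝ ((↑) : W → H) := hb ▸ b.orthonormal
  have : Countable W := countable_of_orthonormal hbo
  have : Infinite W := by
    by_contra hfin
    rw [not_infinite_iff_finite] at hfin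
    apply hinf
    have hspan : (Submodule.span ℝ (Set.range b)).topologicalClosure = ⊤ := b.dense_span
    have hfr : (Set.range b).Finite := Set.finite_range b
    have : FiniteDimensional ℝ (Submodule.span ℝ (Set.range b)) := FiniteDimensional.span_of_finite ℝ hfr
    have hcl : IsClosed (Submodule.span ℝ (Set.range b) : Set H) := Submodule.closed_of_finiteDimensional _
    rw [hcl.submodule_topologicalClosure_eq] at hspan
    have : FiniteDimensional ℝ (⊤ : Submodule ℝ H) := hspan ▸ this
    exact Module.finite_def.2 (Module.Finite.iff_fg.1 this)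
  obtain ⟨σ⟩ : Nonempty (ℕ ≃ W) := inferInstance
  let w0 : W := ⟨(1 / t) • w, hsub rfl⟩
  let σ' : ℕ ≃ W := (Equiv.swap 0 (σ.symm w0)).trans σ
  have hσ0 : σ' 0 = w0 := by simp [σ']
  have hbo' : Orthonormal ℝ (fun n => (σ' n : H)) := hbo.comp σ' σ'.injective
  have hrange : Set.range (fun n => (σ' n : H)) = Set.range b := by
    rw [hb]
    ext x
    constructor
    · rintro ⟨n, rfl⟩; exact ⟨σ' n, rfl⟩
    · rintro ⟨y, rfl⟩; exact ⟨σ'.symm y, by simp⟩
  let B : HilbertBasis ℕ ℝ H := HilbertBasis.mk hbo' (by rw [hrange, b.dense_span])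
  have hB0 : B 0 = (1 / t) • w := by
    have : B 0 = (σ' 0 : H) := by
      have := HilbertBasis.coe_mk hbo' (by rw [hrange, b.dense_span])
      exact congrFun this 0
    rw [this, hσ0]
  refine ⟨inferInstance, ((jt t).toAddMonoidHom.comp
    (B.repr.toLinearEquiv.toLinearMap.toAddMonoidHom)).comp T, fun v => ?_, ?_⟩
  · have h1 : ((jt t).toAddMonoidHom.comp (B.repr.toLinearEquiv.toLinearMap.toAddMonoidHom)).comp T v
        = jt t (B.repr (T v)) := rfl
    rw [h1, norm_jt, B.repr.norm_map, hμT, B.repr_apply_apply, hB0, inner_smul_left]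
    congr 2
    simp only [conj_trivial]
    field_simp
  · have h1 : (((jt t).toAddMonoidHom.comp
        (B.repr.toLinearEquiv.toLinearMap.toAddMonoidHom)).comp T : V → Xt t) =
        (fun h => jt t (B.repr h)) ∘ T := rfl
    rw [h1]
    refine DenseRange.comp (Function.Surjective.denseRange ?_) hTd
      ((continuous_jt t).comp B.repr.continuous)
    exact (jt_surjective t).comp B.repr.surjective

end Pool.Agent.H230R3.GD
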