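import Pool.Agent.H230R3.GD.Defs

set_option autoImplicit false
set_option linter.unusedSectionVars false
set_option linter.unusedVariables false
open Set Metric Filter Topology

namespace Pool.Agent.H230R3.GD

theorem Q_single (G : ℕ → ℕ → ℝ) (i : ℕ) : Q G (Finsupp.single i 1) = G i i := by
  unfold Q
  rw [Finsupp.sum_single_index (by simp), Finsupp.sum_single_index (by simp)]
  simp

theorem Lf_single (φ : ℕ → ℝ) (i : ℕ) : Lf φ (Finsupp.single i 1) = φ i := by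
  unfold Lf
  rw [Finsupp.sum_single_index (by simp)]
  simp

/-- the bilinear form -/
noncomputable def Bf (G : ℕ → ℕ → ℝ) (u v : V) : ℝ :=
  u.sum fun i a => v.sum fun j c => (a : ℝ) * c * G i j

theorem Q_eq_Bf (G : ℕ → ℕ → ℝ) (v : V) : Q G v = Bf G v v := rfl

theorem Bf_add_left (G : ℕ → ℕ → ℝ) (u u' v : V) : Bf G (u + u') v = Bf G u v + Bf G u' v := by
  unfold Bf
  rw [Finsupp.sum_add_index']
  · intro i; simp
  · intro i a b
    rw [← Finsupp.sum_add]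
    refine Finsupp.sum_congr fun j _ => ?_
    push_cast; ring

theorem Bf_symm {G : ℕ → ℕ → ℝ} (hG : ∀ i j, G i j = G j i) (u v : V) : Bf G u v = Bf G v u := by
  unfold Bf
  rw [Finsupp.sum_comm]
  refine Finsupp.sum_congr fun j _ => Finsupp.sum_congr fun i _ => ?_
  rw [hG]; ring

theorem Bf_add_right {G : ℕ → ℕ → ℝ} (hG : ∀ i j, G i j = G j i) (u v v' : V) :
    Bf G u (v + v') = Bf G u v + Bf G u v' := by
  rw [Bf_symm hG, Bf_add_left, Bf_symm hG v, Bf_symm hG v']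

theorem Bf_neg_left (G : ℕ → ℕ → ℝ) (u v : V) : Bf G (-u) v = - Bf G u v := by
  have h := Bf_add_left G u (-u) v
  have h0 : Bf G 0 v = 0 := by simp [Bf]
  rw [add_neg_cancel, h0] at h
  linarith

theorem Lf_add (φ : ℕ → ℝ) (u v : V) : Lf φ (u + v) = Lf φ u + Lf φ v := by
  unfold Lf
  rw [Finsupp.sum_add_index']
  · intro i; simp
  · intro i a b; push_cast; ring

theorem Lf_neg (φ : ℕ → ℝ) (u : V) : Lf φ (-u) = - Lf φ u := by
  have h := Lf_add φ u (-u)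
  have h0 : Lf φ 0 = 0 := by simp [Lf]
  rw [add_neg_cancel, h0] at h
  linarith

theorem Q_add {G : ℕ → ℕ → ℝ} (hG : ∀ i j, G i j = G j i) (u v : V) :
    Q G (u + v) = Q G u + 2 * Bf G u v + Q G v := by
  rw [Q_eq_Bf, Q_eq_Bf, Q_eq_Bf, Bf_add_left, Bf_add_right hG, Bf_add_right hG, Bf_symm hG v u]
  ring

theorem Q_neg {G : ℕ → ℕ → ℝ} (hG : ∀ i j, G i j = G j i) (u : V) : Q G (-u) = Q G u := by
  rw [Q_eq_Bf, Q_eq_Bf, Bf_neg_left, Bf_symm hG, Bf_neg_left]; ring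

theorem Q_sub {G : ℕ → ℕ → ℝ} (hG : ∀ i j, G i j = G j i) (u v : V) :
    Q G (u - v) = Q G u - 2 * Bf G u v + Q G v := by
  rw [sub_eq_add_neg, Q_add hG, Q_neg hG, Bf_symm hG u (-v), Bf_neg_left, Bf_symm hG v u]; ring

theorem Bf_single (G : ℕ → ℕ → ℝ) (i j : ℕ) :
    Bf G (Finsupp.single i 1) (Finsupp.single j 1) = G i j := by
  unfold Bf
  rw [Finsupp.sum_single_index (by simp), Finsupp.sum_single_index (by simp)]
  simp

theorem tendsto_Q {ι : Type*} {l : Filter ι} {Gn : ι → ℕ → ℕ → ℝ} {G : ℕ → ℕ → ℝ}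
    (h : ∀ i j, Tendsto (fun k => Gn k i j) l (𝓝 (G i j))) (v : V) :
    Tendsto (fun k => Q (Gn k) v) l (𝓝 (Q G v)) := by
  unfold Q Finsupp.sum
  exact tendsto_finsetSum _ fun i _ => tendsto_finsetSum _ fun j _ => (h i j).const_mul _

theorem tendsto_Lf {ι : Type*} {l : Filter ι} {φn : ι → ℕ → ℝ} {φ : ℕ → ℝ}
    (h : ∀ i, Tendsto (fun k => φn k i) l (𝓝 (φ i))) (v : V) :
    Tendsto (fun k => Lf (φn k) v) l (𝓝 (Lf φ v)) := by
  unfold Lf Finsupp.sum
  exact tendsto_finsetSum _ fun i _ => (h i).const_mul _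

theorem isClosed_Cs (s : ℝ) : IsClosed (Cs s) := by
  classical
  rw [isClosed_iff_ultrafilter]
  intro μ0 u hu hs
  have hex : ∀ μ : V → ℝ, ∃ (G : ℕ → ℕ → ℝ) (φ : ℕ → ℝ), μ ∈ Cs s → (∀ i j, G i j = G j i) ∧
    ∀ v : V, 0 ≤ Q G v ∧ |Lf φ v| ≤ s * Real.sqrt (Q G v) ∧ μ v = Real.sqrt (Q G v) + |Lf φ v| := by
    intro μ
    by_cases hμ : μ ∈ Cs s
    · obtain ⟨G, φ, h⟩ := hμ
      exact ⟨G, φ, fun _ => h⟩
    · exact ⟨0, 0, fun h => absurd h hμ⟩
  choose Gf φf hf using hex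
  have hconv : ∀ v : V, Tendsto (fun μ : V → ℝ => μ v) u (𝓝 (μ0 v)) := fun v =>
    ((continuous_apply v).tendsto μ0).mono_left hu
  -- bounds
  have hGb : ∀ i j, ∀ᶠ μ in (u : Filter (V → ℝ)), Gf μ i j ∈
      Icc (-((μ0 (Finsupp.single i 1) + 1) ^ 2 + (μ0 (Finsupp.single j 1) + 1) ^ 2))
        ((μ0 (Finsupp.single i 1) + 1) ^ 2 + (μ0 (Finsupp.single j 1) + 1) ^ 2) := by
    intro i j
    have h1 := (hconv (Finsupp.single i 1)).eventually (gt_mem_nhds (lt_add_one _))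
    have h2 := (hconv (Finsupp.single j 1)).eventually (gt_mem_nhds (lt_add_one _))
    filter_upwards [hs, h1, h2] with μ hμ hi hj
    obtain ⟨hsym, hv⟩ := hf μ hμ
    have key : ∀ k, 0 ≤ Gf μ k k ∧ Gf μ k k ≤ μ (Finsupp.single k 1) ^ 2 ∧
        0 ≤ μ (Finsupp.single k 1) := by
      intro k
      obtain ⟨h3, h4, h5⟩ := hv (Finsupp.single k 1)
      rw [Q_single] at h3 h5
      refine ⟨h3, ?_, ?_⟩
      · rw [h5]
        nlinarith [Real.sq_sqrt h3, Real.sqrt_nonneg (Gf μ k k), abs_nonneg (Lf (φf μ) (Finsupp.single k 1)),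
          mul_nonneg (Real.sqrt_nonneg (Gf μ k k)) (abs_nonneg (Lf (φf μ) (Finsupp.single k 1)))]
      · rw [h5]; positivity
    have h6 := (hv (Finsupp.single i 1 + Finsupp.single j 1)).1
    have h7 := (hv (Finsupp.single i 1 - Finsupp.single j 1)).1
    rw [Q_add hsym, Q_single, Q_single, Bf_single] at h6
    rw [Q_sub hsym, Q_single, Q_single, Bf_single] at h7
    obtain ⟨k1, k2, k3⟩ := key i
    obtain ⟨l1, l2, l3⟩ := key j
    have h8 : μ (Finsupp.single i 1) ^ 2 ≤ (μ0 (Finsupp.single i 1) + 1) ^ 2 :=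
      pow_le_pow_left₀ k3 hi.le 2
    have h9 : μ (Finsupp.single j 1) ^ 2 ≤ (μ0 (Finsupp.single j 1) + 1) ^ 2 :=
      pow_le_pow_left₀ l3 hj.le 2
    constructor <;> linarith
  have hφb : ∀ i, ∀ᶠ μ in (u : Filter (V → ℝ)), φf μ i ∈
      Icc (-(μ0 (Finsupp.single i 1) + 1)) (μ0 (Finsupp.single i 1) + 1) := by
    intro i
    have h1 := (hconv (Finsupp.single i 1)).eventually (gt_mem_nhds (lt_add_one _))
    filter_upwards [hs, h1] with μ hμ hi
    obtain ⟨hsym, hv⟩ := hf μ hμ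
    obtain ⟨h3, h4, h5⟩ := hv (Finsupp.single i 1)
    rw [Lf_single] at h5
    rw [mem_Icc, ← abs_le]
    have := Real.sqrt_nonneg (Q (Gf μ) (Finsupp.single i 1))
    linarith
  have hGl : ∀ i j, ∃ g : ℝ, Tendsto (fun μ => Gf μ i j) u (𝓝 g) := by
    intro i j
    obtain ⟨g, -, hg⟩ := isCompact_Icc.ultrafilter_le_nhds (u.map fun μ => Gf μ i j)
      (le_principal_iff.2 (hGb i j))
    exact ⟨g, hg⟩
  have hφl : ∀ i, ∃ g : ℝ, Tendsto (fun μ => φf μ i) u (𝓝 g) := by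
    intro i
    obtain ⟨g, -, hg⟩ := isCompact_Icc.ultrafilter_le_nhds (u.map fun μ => φf μ i)
      (le_principal_iff.2 (hφb i))
    exact ⟨g, hg⟩
  choose G hG using hGl
  choose φ hφ using hφl
  refine ⟨G, φ, fun i j => ?_, fun v => ?_⟩
  · refine tendsto_nhds_unique_of_eventuallyEq (hG i j) (hG j i) ?_
    filter_upwards [hs] with μ hμ
    exact (hf μ hμ).1 i j
  · have hQ := tendsto_Q hG v
    have hL := tendsto_Lf hφ v
    have hsq := (Real.continuous_sqrt.tendsto _).comp hQ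
    have habs := hL.abs
    refine ⟨ge_of_tendsto hQ ?_, le_of_tendsto_of_tendsto habs (hsq.const_mul s) ?_,
      tendsto_nhds_unique_of_eventuallyEq (hconv v) (hsq.add habs) ?_⟩
    · filter_upwards [hs] with μ hμ
      exact ((hf μ hμ).2 v).1
    · filter_upwards [hs] with μ hμ
      exact ((hf μ hμ).2 v).2.1
    · filter_upwards [hs] with μ hμ
      exact ((hf μ hμ).2 v).2.2

end Pool.Agent.H230R3.GD
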