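import Pool.Agent.H230R3.GD.Closed

set_option autoImplicit false
set_option linter.unusedSectionVars false
set_option linter.unusedVariables false
open Set Metric Filter Topology

namespace Pool.Agent.H230R3.GD

section gram
variable {H : Type*} [NormedAddCommGroup H] [InnerProductSpace ℝ H]

theorem Q_gram (x : ℕ → H) (v : V) :
    Q (fun i j => inner ℝ (x i) (x j)) v = ‖v.sum fun i a => (a : ℝ) • x i‖ ^ 2 := by
  rw [← real_inner_self_eq_norm_sq]
  unfold Q Finsupp.sum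
  rw [sum_inner]
  refine Finset.sum_congr rfl fun i _ => ?_
  rw [inner_sum]
  refine Finset.sum_congr rfl fun j _ => ?_
  rw [inner_smul_left, inner_smul_right]
  simp only [conj_trivial]
  ring

theorem Lf_gram (w : H) (x : ℕ → H) (v : V) :
    Lf (fun i => inner ℝ w (x i)) v = inner ℝ w (v.sum fun i a => (a : ℝ) • x i) := by
  unfold Lf Finsupp.sum
  rw [inner_sum]
  refine Finset.sum_congr rfl fun i _ => ?_
  rw [inner_smul_right]

theorem mem_Cs_of_gram {μ : V → ℝ} {s : ℝ} (S : V →+ H) (w : H) (hw : ‖w‖ ≤ s)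
    (hμ : ∀ v, μ v = ‖S v‖ + |inner ℝ w (S v)|) : μ ∈ Cs s := by
  refine ⟨fun i j => inner ℝ (S (Finsupp.single i 1)) (S (Finsupp.single j 1)),
    fun i => inner ℝ w (S (Finsupp.single i 1)), fun i j => real_inner_comm _ _, fun v => ?_⟩
  rw [Q_gram, Lf_gram, ← additive_apply S v, Real.sqrt_sq (norm_nonneg _)]
  refine ⟨by positivity, ?_, hμ v⟩
  exact (abs_real_inner_le_norm _ _).trans (mul_le_mul_of_nonneg_right hw (norm_nonneg _))

end gram

/-- first coordinate vector of `ℓ₂` -/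
noncomputable def e (i : ℕ) : L2 := lp.single 2 i (1 : ℝ)

theorem inner_e (i : ℕ) (h : L2) : inner ℝ (e i) h = h i := by
  unfold e
  rw [lp.inner_single_left]
  simp

theorem norm_e (i : ℕ) : ‖e i‖ = 1 := by
  unfold e
  rw [lp.norm_single (by norm_num)]
  simp

theorem e_apply (i j : ℕ) : (e i : L2) j = if j = i then 1 else 0 := by
  unfold e
  by_cases h : j = i
  · subst h; simp
  · rw [if_neg h]; exact lp.single_apply_ne (E := fun _ : ℕ => ℝ) 2 i (1 : ℝ) h

theorem comb_apply (R σ : ℝ) (j : ℕ) : (R • e 1 + σ • e 0 : L2) j =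
    R * (if j = 1 then 1 else 0) + σ * (if j = 0 then 1 else 0) := by
  rw [lp.coeFn_add, lp.coeFn_smul, lp.coeFn_smul]
  simp only [Pi.add_apply, Pi.smul_apply, smul_eq_mul, e_apply]

theorem sum_le_aux {rx ry rp rm : ℝ} (hx : 0 < rx) (hpar : rp ^ 2 + rm ^ 2 = 2 * rx ^ 2 + 2 * ry ^ 2) :
    rp + rm ≤ 2 * rx + ry ^ 2 / rx := by
  have h6 : (2 * rx + ry ^ 2 / rx) ^ 2 = 4 * rx ^ 2 + 4 * ry ^ 2 + (ry ^ 2 / rx) ^ 2 := by
    field_simp; ring
  have h5 : (rp + rm) ^ 2 ≤ (2 * rx + ry ^ 2 / rx) ^ 2 := by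
    rw [h6]
    nlinarith [sq_nonneg (rp - rm), sq_nonneg (ry ^ 2 / rx)]
  exact (abs_le_of_sq_le_sq' h5 (by positivity)).2

theorem final_aux {s t ε A l : ℝ} (hs : 0 ≤ s) (ht : 0 < t) (hε : 0 < ε)
    (hmain : 2 * t ≤ 6 * ε + ε * A + 2 * l) (hly : (1 + s) * l ≤ s * (1 + t + ε)) :
    t ≤ s + ε * (6 * (1 + s) + A * (1 + s) + 2 * s) / 2 := by
  nlinarith [mul_le_mul_of_nonneg_left hmain (by linarith : 0 ≤ 1 + s)]

/-- the `ℓ₂` component of a code -/
noncomputable def Scomp {t : ℝ} (T : V →+ Xt t) : V →+ L2 where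
  toFun v := (T v : WithLp 1 (L2 × ℝ)).fst
  map_zero' := by simp
  map_add' a b := by simp

theorem norm_T {t : ℝ} (ht : 0 ≤ t) (T : V →+ Xt t) (v : V) :
    ‖T v‖ = ‖Scomp T v‖ + |inner ℝ (t • e 0) (Scomp T v)| := by
  rw [norm_Xt, inner_smul_left, inner_e]
  rfl

theorem codes_mem {t : ℝ} (ht : 0 ≤ t) {μ : V → ℝ} (hμ : Codes μ (Xt t)) : μ ∈ Cs t := by
  obtain ⟨-, T, hT, -⟩ := hμ
  refine mem_Cs_of_gram (Scomp T) (t • e 0) ?_ fun v => ?_
  · rw [norm_smul, norm_e, mul_one, Real.norm_eq_abs, abs_of_nonneg ht]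
  · rw [← hT, norm_T ht]

/-- A code of `X_t` is not in `Cs s` for `s < t`. -/
theorem codes_notMem {s t : ℝ} (hs : 0 ≤ s) (hst : s < t) {μ : V → ℝ} (hμ : Codes μ (Xt t)) :
    μ ∉ Cs s := by
  rintro ⟨G, φ, hsym, hv⟩
  obtain ⟨-, T, hT, hd⟩ := hμ
  have ht : 0 < t := lt_of_le_of_lt hs hst
  -- the basic inequality
  have key : ∀ ε : ℝ, 0 < ε → ε < 1 → t ≤ s + ε * (6 * (1 + s) + (2 + t) ^ 2 * (1 + s) * (1 + s) + 2 * s) / 2 := by
    intro ε hε hε1
    set R : ℝ := 1 / ε + 1 with hR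
    have hRpos : 0 < R := by positivity
    have hR1 : 1 / ε ≤ R - ε := by rw [hR]; linarith
    obtain ⟨y, hy⟩ := Metric.denseRange_iff.1 hd (jt t (e 0)) ε hε
    obtain ⟨x, hx⟩ := Metric.denseRange_iff.1 hd (R • jt t (e 1)) ε hε
    have hne : ‖jt t (e 0)‖ = 1 + t := by
      rw [norm_jt, norm_e]
      have : (e 0 : L2) 0 = 1 := by simp [e]
      rw [this, mul_one, abs_of_pos ht]
    have he1 : ‖jt t (e 1)‖ = 1 := by
      rw [norm_jt, norm_e]
      have : (e 1 : L2) 0 = 0 := by simp [e]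
      rw [this, mul_zero, abs_zero, add_zero]
    have hRe : ‖R • jt t (e 1)‖ = R := by
      rw [norm_smul, he1, mul_one, Real.norm_eq_abs, abs_of_pos hRpos]
    -- lower bounds
    have hbig : ∀ σ : ℝ, |σ| = 1 → R + t ≤ ‖R • jt t (e 1) + σ • jt t (e 0)‖ := by
      intro σ hσ
      have h1 : R • jt t (e 1) + σ • jt t (e 0) = jt t (R • e 1 + σ • e 0) := by
        rw [map_add, map_smul, map_smul]
      rw [h1, norm_jt]
      have h2 : (R • e 1 + σ • e 0 : L2) 0 = σ := by rw [comb_apply]; simp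
      have h3 : (R • e 1 + σ • e 0 : L2) 1 = R := by rw [comb_apply]; simp
      rw [h2, abs_mul, hσ, mul_one, abs_of_pos ht]
      have h4 : ‖(R • e 1 + σ • e 0 : L2) 1‖ ≤ ‖(R • e 1 + σ • e 0 : L2)‖ :=
        lp.norm_apply_le_norm (by norm_num) _ 1
      rw [h3, Real.norm_eq_abs, abs_of_pos hRpos] at h4
      linarith
    have hTy : ‖T y - jt t (e 0)‖ < ε := by rw [← dist_eq_norm, dist_comm]; exact hy
    have hTx : ‖T x - R • jt t (e 1)‖ < ε := by rw [← dist_eq_norm, dist_comm]; exact hx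
    have hμy : μ y ≤ 1 + t + ε := by
      rw [← hT, ← hne]
      have := norm_le_norm_add_norm_sub' (T y) (jt t (e 0))
      linarith
    have hμx : μ x ≤ R + ε := by
      rw [← hT]
      have := norm_le_norm_add_norm_sub' (T x) (R • jt t (e 1))
      linarith
    have hμx' : R - ε ≤ μ x := by
      rw [← hT]
      have := norm_le_norm_add_norm_sub (T x) (R • jt t (e 1))
      linarith
    have hp : R + t - 2 * ε ≤ μ (x + y) := by
      rw [← hT, map_add]
      have h1 := hbig 1 (by simp)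
      rw [one_smul] at h1
      have h2 : R • jt t (e 1) + jt t (e 0) = (T x + T y) - ((T x - R • jt t (e 1)) +
        (T y - jt t (e 0))) := by abel
      rw [h2] at h1
      have h3 := norm_sub_le (T x + T y) ((T x - R • jt t (e 1)) + (T y - jt t (e 0)))
      have h4 := norm_add_le (T x - R • jt t (e 1)) (T y - jt t (e 0))
      linarith
    have hm : R + t - 2 * ε ≤ μ (x - y) := by
      rw [← hT, map_sub]
      have h1 := hbig (-1) (by simp)
      rw [neg_one_smul, ← sub_eq_add_neg] at h1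
      have h2 : R • jt t (e 1) - jt t (e 0) = (T x - T y) - ((T x - R • jt t (e 1)) -
        (T y - jt t (e 0))) := by abel
      rw [h2] at h1
      have h3 := norm_sub_le (T x - T y) ((T x - R • jt t (e 1)) - (T y - jt t (e 0)))
      have h4 := norm_sub_le (T x - R • jt t (e 1)) (T y - jt t (e 0))
      linarith
    -- the representation
    obtain ⟨x1, x2, x3⟩ := hv x
    obtain ⟨y1, y2, y3⟩ := hv y
    obtain ⟨p1, p2, p3⟩ := hv (x + y)
    obtain ⟨m1, m2, m3⟩ := hv (x - y)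
    set rx := Real.sqrt (Q G x) with hrx
    set ry := Real.sqrt (Q G y) with hry
    set rp := Real.sqrt (Q G (x + y)) with hrp
    set rm := Real.sqrt (Q G (x - y)) with hrm
    have qx : rx ^ 2 = Q G x := Real.sq_sqrt x1
    have qy : ry ^ 2 = Q G y := Real.sq_sqrt y1
    have qp : rp ^ 2 = Q G (x + y) := Real.sq_sqrt p1
    have qm : rm ^ 2 = Q G (x - y) := Real.sq_sqrt m1
    have hpar : rp ^ 2 + rm ^ 2 = 2 * rx ^ 2 + 2 * ry ^ 2 := by
      rw [qx, qy, qp, qm, Q_add hsym, Q_sub hsym]; ring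
    have rx0 : 0 ≤ rx := Real.sqrt_nonneg _
    have ry0 : 0 ≤ ry := Real.sqrt_nonneg _
    have rp0 : 0 ≤ rp := Real.sqrt_nonneg _
    have rm0 : 0 ≤ rm := Real.sqrt_nonneg _
    have h1s : 0 < 1 + s := by linarith
    have hrx1 : (R - ε) / (1 + s) ≤ rx := by
      rw [div_le_iff₀ h1s]; nlinarith
    have hRε : 0 < R - ε := by have : 0 < 1 / ε := by positivity
                               linarith
    have hrxpos : 0 < rx := lt_of_lt_of_le (by positivity) hrx1
    have hsum : rp + rm ≤ 2 * rx + ry ^ 2 / rx := sum_le_aux hrxpos hpar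
    have hLp : Lf φ (x + y) = Lf φ x + Lf φ y := Lf_add φ x y
    have hLm : Lf φ (x - y) = Lf φ x - Lf φ y := by
      rw [sub_eq_add_neg, Lf_add, Lf_neg]; ring
    have hL : |Lf φ (x + y)| + |Lf φ (x - y)| ≤ 2 * |Lf φ x| + 2 * |Lf φ y| := by
      rw [hLp, hLm]
      have h7 := abs_add_le (Lf φ x) (Lf φ y)
      have h8 := abs_sub (Lf φ x) (Lf φ y)
      linarith
    have hly : (1 + s) * |Lf φ y| ≤ s * (1 + t + ε) := by
      have : (1 + s) * |Lf φ y| ≤ s * μ y := by rw [y3]; nlinarith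
      exact this.trans (mul_le_mul_of_nonneg_left hμy hs)
    have hryle : ry ≤ 1 + t + ε := by
      have := abs_nonneg (Lf φ y); linarith
    have hdiv : ry ^ 2 / rx ≤ ε * ((2 + t) ^ 2 * (1 + s)) := by
      have h9 : 1 / ε / (1 + s) ≤ rx := le_trans (by gcongr) hrx1
      have h10 : ry ^ 2 ≤ (2 + t) ^ 2 := pow_le_pow_left₀ ry0 (by linarith) 2
      calc ry ^ 2 / rx ≤ (2 + t) ^ 2 / (1 / ε / (1 + s)) := by
            apply div_le_div₀ (by positivity) h10 (by positivity) h9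
        _ = ε * ((2 + t) ^ 2 * (1 + s)) := by field_simp
    have hmain : 2 * t ≤ 6 * ε + ε * ((2 + t) ^ 2 * (1 + s)) + 2 * |Lf φ y| := by
      linarith
    have h12 := final_aux hs ht hε hmain hly
    linarith
  set C := 6 * (1 + s) + (2 + t) ^ 2 * (1 + s) * (1 + s) + 2 * s with hC
  have hCpos : 0 < C := by positivity
  have h1 := key (min (1 / 2) ((t - s) / (2 * C))) (lt_min (by norm_num) (by
    apply div_pos <;> linarith)) (lt_of_le_of_lt (min_le_left _ _) (by norm_num))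
  have h2 : min (1 / 2) ((t - s) / (2 * C)) * C ≤ (t - s) / (2 * C) * C :=
    mul_le_mul_of_nonneg_right (min_le_right _ _) hCpos.le
  have h3 : (t - s) / (2 * C) * C = (t - s) / 2 := by field_simp
  linarith

end Pool.Agent.H230R3.GD
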