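import Mathlib

set_option autoImplicit false
set_option linter.unusedSectionVars false
set_option linter.unusedVariables false
open Set Metric Filter Topology

namespace Pool.Agent.H230R3.GD

/-- `V`: the `ℚ`-vector space of finitely supported sequences of rationals. -/
abbrev V : Type := ℕ →₀ ℚ

/-- `μ : V → [0, ∞)` is a pseudonorm on `V`. -/
structure IsPseudonorm (μ : V → ℝ) : Prop where
  nonneg : ∀ v, 0 ≤ μ v
  smul : ∀ (q : ℚ) (v : V), μ (q • v) = |(q : ℝ)| * μ v
  add_le : ∀ u v, μ (u + v) ≤ μ u + μ v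

/-- The real Banach space `X` is (linearly isometric to) the space `X_μ` coded by `μ`, the completion
of `V / {μ = 0}` with respect to `μ`: `X` is complete and there is an additive (equivalently,
`ℚ`-linear) map `T : V → X` with `‖T v‖ = μ v` whose range is dense. -/
def Codes (μ : V → ℝ) (X : Type*) [NormedAddCommGroup X] [NormedSpace ℝ X] : Prop :=
  CompleteSpace X ∧ ∃ T : V →+ X, (∀ v, ‖T v‖ = μ v) ∧ DenseRange T

/-- `𝒫_∞`: pseudonorms `μ` on `V` such that `X_μ` is infinite-dimensional. -/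
def PInf : Set (V → ℝ) :=
  {μ | IsPseudonorm μ ∧ ∃ (X : Type) (_ : NormedAddCommGroup X) (_ : NormedSpace ℝ X),
    Codes μ X ∧ ¬ FiniteDimensional ℝ X}

/-- `ℬ`: those `μ ∈ 𝒫_∞` that are norms on `V`. -/
def BInf : Set (V → ℝ) := {μ | μ ∈ PInf ∧ ∀ v, μ v = 0 → v = 0}

/-- the real Hilbert space `ℓ₂` -/
abbrev L2 : Type := lp (fun _ : ℕ => ℝ) 2

/-- The graph of `h ↦ t h₀` in the `ℓ₁`-sum `ℓ₂ ⊕₁ ℝ`. -/
noncomputable def Xsub (t : ℝ) : Submodule ℝ (WithLp 1 (L2 × ℝ)) where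
  carrier := {p | p.snd = t * p.fst 0}
  add_mem' := by
    intro a b ha hb
    simp only [mem_ofPred_eq, WithLp.add_snd, WithLp.add_fst, lp.coeFn_add, Pi.add_apply] at *
    rw [ha, hb]; ring
  zero_mem' := by simp
  smul_mem' := by
    intro c a ha
    simp only [mem_ofPred_eq, WithLp.smul_snd, WithLp.smul_fst, lp.coeFn_smul, Pi.smul_apply,
      smul_eq_mul] at *
    rw [ha]; ring

/-- The Banach space `X_t`: the Hilbert space `ℓ₂` with the norm `‖h‖₂ + t |h₀|`, realised as the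
subspace `{(h, t h₀)}` of `ℓ₂ ⊕₁ ℝ`. -/
abbrev Xt (t : ℝ) : Type := Xsub t

/-- the parametrisation of `X_t` by `ℓ₂` -/
noncomputable def jt (t : ℝ) : L2 →ₗ[ℝ] Xt t where
  toFun h := ⟨WithLp.toLp 1 (h, t * h 0), rfl⟩
  map_add' a b := by
    ext1
    simp only [lp.coeFn_add, Pi.add_apply, Submodule.coe_add]
    rw [← WithLp.toLp_add]
    congr 1
    ext1
    · rfl
    · simp only [Prod.snd_add]; ring
  map_smul' c a := by
    ext1
    simp only [lp.coeFn_smul, Pi.smul_apply, smul_eq_mul, Submodule.coe_smul, RingHom.id_apply]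
    rw [← WithLp.toLp_smul]
    congr 1
    ext1
    · rfl
    · simp only [Prod.smul_snd, smul_eq_mul]; ring

theorem norm_Xt (t : ℝ) (x : Xt t) :
    ‖x‖ = ‖(x : WithLp 1 (L2 × ℝ)).fst‖ + |t * (x : WithLp 1 (L2 × ℝ)).fst 0| := by
  have h1 : ‖x‖ = ‖(x : WithLp 1 (L2 × ℝ))‖ := rfl
  rw [h1, WithLp.prod_norm_eq_of_L1]
  have h2 : (x : WithLp 1 (L2 × ℝ)).snd = t * (x : WithLp 1 (L2 × ℝ)).fst 0 := x.2
  rw [h2, Real.norm_eq_abs]

theorem norm_jt (t : ℝ) (h : L2) : ‖jt t h‖ = ‖h‖ + |t * h 0| := norm_Xt t (jt t h)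

theorem jt_fst (t : ℝ) (x : Xt t) : jt t ((x : WithLp 1 (L2 × ℝ)).fst) = x := by
  ext1
  have h2 : (x : WithLp 1 (L2 × ℝ)).snd = t * (x : WithLp 1 (L2 × ℝ)).fst 0 := x.2
  show WithLp.toLp 1 ((x : WithLp 1 (L2 × ℝ)).fst, t * (x : WithLp 1 (L2 × ℝ)).fst 0) = _
  rw [← h2]
  rfl

theorem jt_surjective (t : ℝ) : Function.Surjective (jt t) := fun x => ⟨_, jt_fst t x⟩

theorem continuous_coord (i : ℕ) : Continuous (fun h : L2 => h i) := by
  have : (fun h : L2 => h i) = fun h : L2 => inner ℝ (lp.single 2 i (1 : ℝ)) h := by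
    funext h
    rw [lp.inner_single_left]
    simp
  rw [this]
  fun_prop

theorem continuous_jt (t : ℝ) : Continuous (jt t) := by
  refine Continuous.subtype_mk ?_ _
  refine (WithLp.prod_continuous_toLp 1 _ _).comp ?_
  exact continuous_id.prodMk (continuous_const.mul (continuous_coord 0))

theorem isClosed_Xsub (t : ℝ) : IsClosed (Xsub t : Set (WithLp 1 (L2 × ℝ))) := by
  refine isClosed_eq (WithLp.continuous_snd 1 _ _) ?_
  exact continuous_const.mul ((continuous_coord 0).comp (WithLp.continuous_fst 1 _ _))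

instance (t : ℝ) : CompleteSpace (Xt t) := (isClosed_Xsub t).completeSpace_coe

/-- `T v = ∑ vᵢ T eᵢ` for additive `T`. -/
theorem additive_apply {X : Type*} [NormedAddCommGroup X] [NormedSpace ℝ X] (T : V →+ X) (v : V) :
    T v = v.sum fun i a => (a : ℝ) • T (Finsupp.single i 1) := by
  induction v using Finsupp.induction_linear with
  | zero => simp
  | add f g hf hg =>
    rw [map_add, hf, hg, Finsupp.sum_add_index']
    · intro i; simp
    · intro i a b; push_cast; rw [add_smul]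
  | single i a =>
    rw [Finsupp.sum_single_index (by simp)]
    have h1 : (Finsupp.single i a : V) = a • Finsupp.single i 1 := by simp
    let _ : Module ℚ X := Module.compHom X (algebraMap ℚ ℝ)
    conv_lhs => rw [h1]
    exact map_rat_smul T a _

/-- The quadratic form with Gram matrix `G`. -/
noncomputable def Q (G : ℕ → ℕ → ℝ) (v : V) : ℝ :=
  v.sum fun i a => v.sum fun j c => (a : ℝ) * c * G i j

/-- The linear form with coefficients `φ`. -/
noncomputable def Lf (φ : ℕ → ℝ) (v : V) : ℝ := v.sum fun i a => (a : ℝ) * φ i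

/-- The set of all `μ = √Q + |L|` with `|L| ≤ s √Q`. -/
def Cs (s : ℝ) : Set (V → ℝ) :=
  {μ | ∃ (G : ℕ → ℕ → ℝ) (φ : ℕ → ℝ), (∀ i j, G i j = G j i) ∧
    ∀ v : V, 0 ≤ Q G v ∧ |Lf φ v| ≤ s * Real.sqrt (Q G v) ∧ μ v = Real.sqrt (Q G v) + |Lf φ v|}

end Pool.Agent.H230R3.GD
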