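import Pool.Agent.H230R3.GD.Uniq

set_option autoImplicit false
set_option linter.unusedSectionVars false
set_option linter.unusedVariables false
open Set Metric Filter Topology MeasureTheory
open scoped ENNReal

namespace Pool.Agent.H230R3.GD

/-- The space `X_t`: the subspace `{(h, t h₀)}` of `ℓ₂ ⊕₁ ℝ`, i.e. `ℓ₂` with the norm
`‖h‖₂ + t |h₀|`. -/
def Sp (t : ℝ) : Type := Xt t

noncomputable instance instGroupSp (t : ℝ) : NormedAddCommGroup (Sp t) :=
  Submodule.normedAddCommGroup (Xsub t)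

noncomputable instance instSpaceSp (t : ℝ) : NormedSpace ℝ (Sp t) :=
  Submodule.normedSpace (Xsub t)

/-- `X` and `Y` are linearly isometric -/
def AreIsometric (X Y : Type) [NormedAddCommGroup X] [NormedSpace ℝ X] [NormedAddCommGroup Y]
    [NormedSpace ℝ Y] : Prop := Nonempty (X ≃ₗᵢ[ℝ] Y)

/-- `X` is linearly isometric to `L_p[0,1]` for some `p ∈ [1,∞)` -/
def IsLp01 (X : Type) [NormedAddCommGroup X] [NormedSpace ℝ X] : Prop :=
  ∃ (p : ℝ≥0∞) (_ : Fact (1 ≤ p)), p ≠ ∞ ∧ AreIsometric X (LpI p)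

/-- the isometry class of `X` in `𝒫_∞` -/
def classP (X : Type) [NormedAddCommGroup X] [NormedSpace ℝ X] : Set PInf :=
  {μ | Codes μ.1 X}

/-- the isometry class of `X` in `ℬ` -/
def classB (X : Type) [NormedAddCommGroup X] [NormedSpace ℝ X] : Set BInf :=
  {μ | Codes μ.1 X}

end Pool.Agent.H230R3.GD
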