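import Pool.Agent.H230R3.GD.ClaimC

set_option autoImplicit false
set_option linter.unusedSectionVars false
set_option linter.unusedVariables false
open Set Metric Filter Topology MeasureTheory

namespace Pool.Agent.H230R3.GD

/-! ### An explicit code -/

/-- the inclusion of `V` in `ℓ₂` -/
noncomputable def emb : V →+ L2 where
  toFun v := v.sum fun i a => (a : ℝ) • e i
  map_zero' := by simp
  map_add' a b := by
    rw [Finsupp.sum_add_index']
    · intro i; simp
    · intro i x y; push_cast; rw [add_smul]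

theorem emb_apply (v : V) (j : ℕ) : (emb v : L2) j = v j := by
  have h1 : (emb v : L2) j = inner ℝ (e j) (emb v) := (inner_e j _).symm
  rw [h1]
  show inner ℝ (e j) (v.sum fun i a => (a : ℝ) • e i) = _
  unfold Finsupp.sum
  rw [inner_sum]
  simp only [inner_smul_right, inner_e, e_apply, mul_ite, mul_one, mul_zero]
  rw [Finset.sum_ite_eq]
  by_cases h : j ∈ v.support
  · rw [if_pos h]
  · rw [if_neg h]
    rw [Finsupp.notMem_support_iff] at h
    rw [h]; simp

theorem emb_single (i : ℕ) (a : ℚ) : emb (Finsupp.single i a) = (a : ℝ) • e i := by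
  show (Finsupp.single i a).sum (fun i a => (a : ℝ) • e i) = _
  rw [Finsupp.sum_single_index (by simp)]

theorem denseRange_emb : DenseRange emb := by
  have hmem : ∀ (i : ℕ) (a : ℝ), (a • e i : L2) ∈ (emb.range.topologicalClosure : Set L2) := by
    intro i a
    have hcl : IsClosed {a : ℝ | (a • e i : L2) ∈ (emb.range.topologicalClosure : Set L2)} :=
      (AddSubgroup.isClosed_topologicalClosure _).preimage (by fun_prop)
    have hsub : Set.range ((↑) : ℚ → ℝ) ⊆
        {a : ℝ | (a • e i : L2) ∈ (emb.range.topologicalClosure : Set L2)} := by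
      rintro _ ⟨q, rfl⟩
      refine AddSubgroup.le_topologicalClosure _ ?_
      exact ⟨Finsupp.single i q, emb_single i q⟩
    exact hcl.closure_subset_iff.2 hsub (Rat.denseRange_cast a)
  intro h
  have hs : HasSum (fun i => lp.single 2 i (h i)) h := lp.hasSum_single ENNReal.ofNat_ne_top h
  have hcl : IsClosed (emb.range.topologicalClosure : Set L2) :=
    AddSubgroup.isClosed_topologicalClosure _
  have h2 : h ∈ (emb.range.topologicalClosure : Set L2) := by
    refine hcl.mem_of_tendsto hs (Eventually.of_forall fun s => ?_)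
    refine AddSubgroup.sum_mem _ fun i _ => ?_
    have h3 : (lp.single 2 i (h i) : L2) = h i • e i := by
      unfold e
      rw [← lp.single_smul]; simp
    rw [h3]
    exact hmem i (h i)
  exact h2

/-- the code `v ↦ ‖v‖₂ + t |v₀|` -/
noncomputable def code (t : ℝ) (v : V) : ℝ := ‖jt t (emb v)‖

theorem codes_code (t : ℝ) : Codes (code t) (Xt t) := by
  refine ⟨inferInstance, (jt t).toAddMonoidHom.comp emb, fun v => rfl, ?_⟩
  have h : DenseRange (jt t ∘ emb) :=
    DenseRange.comp (jt_surjective t).denseRange denseRange_emb (continuous_jt t)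
  exact h

theorem isPseudonorm_of_codes {μ : V → ℝ} {X : Type*} [NormedAddCommGroup X] [NormedSpace ℝ X]
    (h : Codes μ X) : IsPseudonorm μ := by
  obtain ⟨-, T, hT, -⟩ := h
  refine ⟨fun v => hT v ▸ norm_nonneg _, fun q v => ?_, fun u v => ?_⟩
  · rw [← hT, ← hT]
    let _ : Module ℚ X := Module.compHom X (algebraMap ℚ ℝ)
    have h1 : T (q • v) = (q : ℝ) • T v := map_rat_smul T q v
    rw [h1, norm_smul, Real.norm_eq_abs]
  · rw [← hT, ← hT, ← hT, map_add]; exact norm_add_le _ _

theorem not_finiteDimensional_Xt (t : ℝ) : ¬ FiniteDimensional ℝ (Xt t) := by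
  intro h
  have h1 : Function.Injective (jt t) := by
    intro a b hab
    have := congrArg (fun x : Xt t => (x : WithLp 1 (L2 × ℝ)).fst) hab
    exact this
  have h2 : FiniteDimensional ℝ L2 := FiniteDimensional.of_injective (jt t) h1
  have h3 : Orthonormal ℝ e := by
    refine ⟨norm_e, fun i j hij => ?_⟩
    show inner ℝ (e i) (e j) = 0
    rw [inner_e, e_apply, if_neg hij]
  have h4 : LinearIndependent ℝ e := h3.linearIndependent
  have h5 : Finite ℕ := h4.finite
  exact not_finite ℕ

theorem separableSpace_Xt (t : ℝ) : TopologicalSpace.SeparableSpace (Xt t) := by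
  obtain ⟨-, T, -, hd⟩ := codes_code t
  exact TopologicalSpace.SeparableSpace.of_denseRange T hd

theorem code_mem_BInf (t : ℝ) : code t ∈ BInf := by
  refine ⟨⟨isPseudonorm_of_codes (codes_code t), Xt t, inferInstance, inferInstance, codes_code t,
    not_finiteDimensional_Xt t⟩, fun v hv => ?_⟩
  have h1 : ‖emb v‖ + |t * emb v 0| = 0 := by rw [← norm_jt]; exact hv
  have h2 : emb v = 0 := by
    rw [← norm_eq_zero]
    linarith [norm_nonneg (emb v), abs_nonneg (t * emb v 0)]
  ext j
  have h3 := emb_apply v j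
  rw [h2] at h3
  simpa using h3.symm

/-! ### Transfer of codes and the Gδ property -/

theorem codes_congr {μ : V → ℝ} {X Y : Type*} [NormedAddCommGroup X] [NormedSpace ℝ X]
    [NormedAddCommGroup Y] [NormedSpace ℝ Y] (f : X ≃ₗᵢ[ℝ] Y) (h : Codes μ X) : Codes μ Y := by
  obtain ⟨hc, T, hT, hd⟩ := h
  refine ⟨?_, f.toLinearEquiv.toLinearMap.toAddMonoidHom.comp T, fun v => ?_, ?_⟩
  · exact f.toIsometryEquiv.completeSpace_iff.1 hc
  · exact (f.norm_map _).trans (hT v)
  · have h : DenseRange (f ∘ T) := DenseRange.comp f.surjective.denseRange hd f.continuous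
    exact h

theorem class_eq {t : ℝ} (ht : 0 < t) {μ : V → ℝ} (hμ : μ ∈ PInf) :
    Codes μ (Xt t) ↔ μ ∈ Cs t ∧ ∀ k : ℕ, μ ∉ Cs (t * (1 - 1 / (k + 1))) := by
  constructor
  · intro h
    refine ⟨codes_mem ht.le h, fun k => ?_⟩
    have h1 : (0 : ℝ) < 1 / ((k : ℝ) + 1) := by positivity
    have h2 : 1 / ((k : ℝ) + 1) ≤ 1 := by
      rw [div_le_one (by positivity)]; linarith [(Nat.cast_nonneg k : (0 : ℝ) ≤ k)]
    refine codes_notMem ?_ ?_ h
    · exact mul_nonneg ht.le (by linarith)
    · nlinarith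
  · rintro ⟨h1, h2⟩
    refine codes_of ht ?_ hμ h1 h2
    have h3 : Tendsto (fun k : ℕ => t * (1 - 1 / ((k : ℝ) + 1))) atTop (𝓝 (t * (1 - 0))) :=
      (tendsto_const_nhds.sub tendsto_one_div_add_atTop_nhds_zero_nat).const_mul t
    simpa using h3

theorem isGδ_class {α : Type*} [TopologicalSpace α] {f : α → V → ℝ} (hf : Continuous f)
    (hP : ∀ a, f a ∈ PInf) {t : ℝ} (ht : 0 < t) : IsGδ {a | Codes (f a) (Xt t)} := by
  have h4 : {a | Codes (f a) (Xt t)} =
      ⋂ k : ℕ, f ⁻¹' (Cs t ∩ (Cs (t * (1 - 1 / ((k : ℝ) + 1))))ᶜ) := by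
    ext a
    simp only [mem_ofPred_eq, mem_inter_iff, mem_iInter, mem_compl_iff, mem_preimage]
    rw [class_eq ht (hP a)]
    exact ⟨fun h k => ⟨h.1, h.2 k⟩, fun h => ⟨(h 0).1, fun k => (h k).2⟩⟩
  rw [h4]
  exact IsGδ.iInter fun k => IsGδ.preimage hf
    ((isClosed_Cs _).isGδ.inter (isClosed_Cs _).isOpen_compl.isGδ)

end Pool.Agent.H230R3.GD
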