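import Pool.Agent.H230R3.GD.NonLp

set_option autoImplicit false
set_option linter.unusedSectionVars false
set_option linter.unusedVariables false
open Set Metric Filter Topology MeasureTheory
open scoped ENNReal

namespace Pool.Agent.H230R3.GD

/-- `L_p[0,1]` -/
abbrev LpI (p : ℝ≥0∞) : Type := Lp ℝ p (volume.restrict (Set.Icc (0 : ℝ) 1))

/-- `L_p[0,1]` contains `ℓ_p²` isometrically. -/
theorem exists_lp2 (p : ℝ≥0∞) [Fact (1 ≤ p)] (hp : p ≠ ∞) : ∃ f g : LpI p, ∀ α β : ℝ,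
    ‖α • f + β • g‖ = (|α| ^ p.toReal + |β| ^ p.toReal) ^ (1 / p.toReal) := by
  set ν : Measure ℝ := volume.restrict (Set.Icc (0 : ℝ) 1) with hν
  have hp1 : (1 : ℝ≥0∞) ≤ p := Fact.out
  have hp0 : p ≠ 0 := (lt_of_lt_of_le zero_lt_one hp1).ne'
  have hpr : 0 < p.toReal := ENNReal.toReal_pos hp0 hp
  have m1 : MeasurableSet (Ico (0 : ℝ) (1 / 2)) := measurableSet_Ico
  have m2 : MeasurableSet (Ico (1 / 2 : ℝ) 1) := measurableSet_Ico
  have ν1 : ν (Ico (0 : ℝ) (1 / 2)) = ENNReal.ofReal (1 / 2) := by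
    rw [hν, Measure.restrict_apply m1, inter_eq_left.2, Real.volume_Ico]
    · norm_num
    · intro x hx; exact ⟨hx.1, by linarith [hx.2]⟩
  have ν2 : ν (Ico (1 / 2 : ℝ) 1) = ENNReal.ofReal (1 / 2) := by
    rw [hν, Measure.restrict_apply m2, inter_eq_left.2, Real.volume_Ico]
    · norm_num
    · intro x hx; exact ⟨by linarith [hx.1], hx.2.le⟩
  have n1 : ν (Ico (0 : ℝ) (1 / 2)) ≠ ∞ := by rw [ν1]; exact ENNReal.ofReal_ne_top
  have n2 : ν (Ico (1 / 2 : ℝ) 1) ≠ ∞ := by rw [ν2]; exact ENNReal.ofReal_ne_top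
  set c : ℝ := 2 ^ (1 / p.toReal) with hc
  have hc0 : 0 < c := by positivity
  refine ⟨indicatorConstLp p m1 n1 c, indicatorConstLp p m2 n2 c, fun α β => ?_⟩
  have hae : (⇑(α • indicatorConstLp p m1 n1 c + β • indicatorConstLp p m2 n2 c : Lp ℝ p ν)) =ᵐ[ν]
      fun x => (Ico (0 : ℝ) (1 / 2)).indicator (fun _ => α * c) x +
        (Ico (1 / 2 : ℝ) 1).indicator (fun _ => β * c) x := by
    filter_upwards [Lp.coeFn_add (α • indicatorConstLp p m1 n1 c) (β • indicatorConstLp p m2 n2 c),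
      Lp.coeFn_smul α (indicatorConstLp p m1 n1 c), Lp.coeFn_smul β (indicatorConstLp p m2 n2 c),
      indicatorConstLp_coeFn (p := p) (hs := m1) (hμs := n1) (c := c),
      indicatorConstLp_coeFn (p := p) (hs := m2) (hμs := n2) (c := c)] with x h1 h2 h3 h4 h5
    rw [h1, Pi.add_apply, h2, h3, Pi.smul_apply, Pi.smul_apply, h4, h5]
    simp only [indicator, smul_eq_mul]
    split_ifs <;> simp
  rw [Lp.norm_def, eLpNorm_congr_ae hae, eLpNorm_eq_lintegral_rpow_enorm_toReal hp0 hp]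
  have hint : ∫⁻ x, ‖(Ico (0 : ℝ) (1 / 2)).indicator (fun _ => α * c) x +
        (Ico (1 / 2 : ℝ) 1).indicator (fun _ => β * c) x‖ₑ ^ p.toReal ∂ν =
      ENNReal.ofReal (|α| ^ p.toReal + |β| ^ p.toReal) := by
    have h1 : ∀ x, ‖(Ico (0 : ℝ) (1 / 2)).indicator (fun _ => α * c) x +
        (Ico (1 / 2 : ℝ) 1).indicator (fun _ => β * c) x‖ₑ ^ p.toReal =
        (Ico (0 : ℝ) (1 / 2)).indicator (fun _ => ‖α * c‖ₑ ^ p.toReal) x +
        (Ico (1 / 2 : ℝ) 1).indicator (fun _ => ‖β * c‖ₑ ^ p.toReal) x := by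
      intro x
      by_cases hx1 : x ∈ Ico (0 : ℝ) (1 / 2)
      · have hx2 : x ∉ Ico (1 / 2 : ℝ) 1 := fun h => by linarith [h.1, hx1.2]
        rw [indicator_of_mem hx1, indicator_of_notMem hx2, indicator_of_mem hx1,
          indicator_of_notMem hx2, add_zero, add_zero]
      · by_cases hx2 : x ∈ Ico (1 / 2 : ℝ) 1
        · rw [indicator_of_notMem hx1, indicator_of_mem hx2, indicator_of_notMem hx1,
            indicator_of_mem hx2, zero_add, zero_add]
        · rw [indicator_of_notMem hx1, indicator_of_notMem hx2, indicator_of_notMem hx1,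
            indicator_of_notMem hx2, add_zero, add_zero, enorm_zero, ENNReal.zero_rpow_of_pos hpr]
    have hcp : c ^ p.toReal = 2 := by
      rw [hc, ← Real.rpow_mul (by norm_num), one_div, inv_mul_cancel₀ hpr.ne', Real.rpow_one]
    have h2 : ∀ α : ℝ, ‖α * c‖ₑ ^ p.toReal * ENNReal.ofReal (1 / 2) =
        ENNReal.ofReal (|α| ^ p.toReal) := by
      intro α
      rw [Real.enorm_eq_ofReal_abs, ENNReal.ofReal_rpow_of_nonneg (abs_nonneg _) hpr.le,
        ← ENNReal.ofReal_mul (by positivity), abs_mul, Real.mul_rpow (abs_nonneg _) (abs_nonneg _),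
        abs_of_pos hc0, hcp]
      congr 1; ring
    simp_rw [h1]
    rw [lintegral_add_left (measurable_const.indicator m1), lintegral_indicator m1,
      lintegral_indicator m2, setLIntegral_const, setLIntegral_const, ν1, ν2, h2, h2,
      ENNReal.ofReal_add (by positivity) (by positivity)]
  rw [hint, ENNReal.ofReal_rpow_of_nonneg (by positivity) (by positivity),
    ENNReal.toReal_ofReal (by positivity)]

theorem not_LpI {t : ℝ} (ht : 0 < t) (p : ℝ≥0∞) [Fact (1 ≤ p)] (hp : p ≠ ∞) :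
    IsEmpty (Xt t ≃ₗᵢ[ℝ] LpI p) := by
  refine ⟨fun Φ => ?_⟩
  have hp1 : (1 : ℝ≥0∞) ≤ p := Fact.out
  obtain ⟨f, g, hfg⟩ := exists_lp2 p hp
  obtain ⟨u, hu⟩ := jt_surjective t (Φ.symm f)
  obtain ⟨v, hv⟩ := jt_surjective t (Φ.symm g)
  have huv : ∀ α β : ℝ, ‖jt t (α • u + β • v)‖ =
      (|α| ^ p.toReal + |β| ^ p.toReal) ^ (1 / p.toReal) := by
    intro α β
    rw [← hfg, map_add, map_smul, map_smul, hu, hv, ← map_smul, ← map_smul, ← map_add,
      Φ.symm.norm_map]
  have hpr1 : 1 ≤ p.toReal := by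
    have := ENNReal.toReal_mono hp hp1
    simpa using this
  rcases eq_or_lt_of_le hpr1 with h1 | h1
  · obtain ⟨ε, hε, h⟩ := no_l1 ht
    refine h u v fun α β => ?_
    rw [huv, ← h1]
    simp only [Real.rpow_one, div_one]
    have : 0 ≤ |α| + |β| := by positivity
    constructor <;> nlinarith
  · by_cases h2 : p.toReal = 2
    · have hp2 : p = 2 := by
        have h3 : p = ENNReal.ofReal 2 := by rw [← h2, ENNReal.ofReal_toReal hp]
        rw [h3]; simp
      subst hp2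
      refine not_parallelogram ht fun x y => ?_
      have h3 := parallelogram_law_with_norm ℝ (Φ x) (Φ y)
      rw [← map_add, ← map_sub, Φ.norm_map, Φ.norm_map, Φ.norm_map, Φ.norm_map] at h3
      nlinarith
    · exact no_lp ht h1 h2 u v huv

end Pool.Agent.H230R3.GD
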