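import Pool.Agent.H230R3.GD.Geo

set_option autoImplicit false
set_option linter.unusedSectionVars false
set_option linter.unusedVariables false
open Set Metric Filter Topology MeasureTheory

namespace Pool.Agent.H230R3.GD

theorem Lbd {t : ℝ} (ht : 0 < t) (h : L2) : |t * h 0| ≤ t * ‖h‖ := by
  rw [abs_mul, abs_of_pos ht]
  refine mul_le_mul_of_nonneg_left ?_ ht.le
  exact lp.norm_apply_le_norm (by norm_num) h 0

theorem abs_pair (a b : ℝ) : |a + b| + |a - b| ≤ 2 * |a| + 2 * |b| := by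
  have h7 := abs_add_le a b
  have h8 := abs_sub a b
  linarith

theorem scalar_aux {t a b l m P M δ : ℝ} (ht : 0 < t) (hδ : δ = 1 / (100 * (1 + t) ^ 2))
    (hu : 1 - δ ^ 2 ≤ a + |l| ∧ a + |l| ≤ 1 + δ ^ 2)
    (hv : 1 - δ ^ 2 ≤ b + |m| ∧ b + |m| ≤ 1 + δ ^ 2)
    (hp : (1 - δ ^ 2) * (1 + δ) ≤ P + |l + δ * m|)
    (hm : (1 - δ ^ 2) * (1 + δ) ≤ M + |l - δ * m|)
    (hpar : P ^ 2 + M ^ 2 = 2 * a ^ 2 + 2 * (δ * b) ^ 2)
    (hlb : |l| ≤ t * a) (hmb : |m| ≤ t * b) (hb0 : 0 ≤ b) : False := by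
  have hδ0 : 0 < δ := by rw [hδ]; positivity
  have ht1 : (1 : ℝ) ≤ (1 + t) := by linarith
  have ht2 : (1 : ℝ) ≤ (1 + t) ^ 2 := by nlinarith
  have hδ1 : δ ≤ 1 / 100 := by
    rw [hδ]; apply one_div_le_one_div_of_le (by norm_num); linarith
  have hapos : 1 / (2 * (1 + t)) ≤ a := by
    rw [div_le_iff₀ (by positivity)]
    nlinarith
  have hapos' : 0 < a := lt_of_lt_of_le (by positivity) hapos
  have hb2 : b ≤ 2 := by
    have := abs_nonneg m
    nlinarith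
  have hsum := sum_le_aux hapos' hpar
  have hdiv : (δ * b) ^ 2 / a ≤ 8 * (1 + t) * δ ^ 2 := by
    have h1 : (δ * b) ^ 2 ≤ 4 * δ ^ 2 := by
      have h0 : (δ * b) ≤ δ * 2 := mul_le_mul_of_nonneg_left hb2 hδ0.le
      have := pow_le_pow_left₀ (mul_nonneg hδ0.le hb0) h0 2
      linarith [this, (by ring : (δ * 2) ^ 2 = 4 * δ ^ 2)]
    calc (δ * b) ^ 2 / a ≤ (4 * δ ^ 2) / (1 / (2 * (1 + t))) := by
          apply div_le_div₀ (by positivity) h1 (by positivity) hapos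
      _ = 8 * (1 + t) * δ ^ 2 := by field_simp; norm_num
  have habs := abs_pair l (δ * m)
  rw [abs_mul δ m, abs_of_pos hδ0] at habs
  have hcube : δ ^ 3 ≤ δ ^ 2 / 100 := by
    have : δ ^ 3 = δ ^ 2 * δ := by ring
    rw [this]
    have := mul_le_mul_of_nonneg_left hδ1 (sq_nonneg δ)
    linarith
  have hexp : (1 - δ ^ 2) * (1 + δ) = 1 + δ - δ ^ 2 - δ ^ 3 := by ring
  rw [hexp] at hp hm
  have key : 2 * δ ≤ (13 + 8 * t) * δ ^ 2 + 2 * δ * |m| := by linarith [sq_nonneg δ]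
  have key2 : 2 ≤ (13 + 8 * t) * δ + 2 * |m| := by
    by_contra hc
    push Not at hc
    have := mul_lt_mul_of_pos_left hc hδ0
    linarith [(by ring : δ * ((13 + 8 * t) * δ + 2 * |m|) = (13 + 8 * t) * δ ^ 2 + 2 * δ * |m|)]
  have hmm : (1 + t) * |m| ≤ t * (1 + δ ^ 2) := by
    have h1 := mul_le_mul_of_nonneg_left hv.2 ht.le
    linarith
  have h3 : (1 + t) ^ 2 * δ = 1 / 100 := by rw [hδ]; field_simp
  have h4 : t * δ ^ 2 ≤ 1 / 100 := by
    have h5 : t * δ ≤ 1 / 100 := by nlinarith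
    have h6 : t * δ ^ 2 = (t * δ) * δ := by ring
    rw [h6]
    have := mul_le_mul h5 hδ1 hδ0.le (by norm_num)
    linarith
  have h7 := mul_le_mul_of_nonneg_left key2 (by linarith : (0 : ℝ) ≤ 1 + t)
  have h8 : (1 + t) * ((13 + 8 * t) * δ + 2 * |m|) ≤ 13 * ((1 + t) ^ 2 * δ) + 2 * ((1 + t) * |m|) := by
    have : (1 + t) * (13 + 8 * t) * δ ≤ 13 * ((1 + t) ^ 2 * δ) := by
      have h9 : (1 + t) * (13 + 8 * t) ≤ 13 * (1 + t) ^ 2 := by nlinarith
      have := mul_le_mul_of_nonneg_right h9 hδ0.le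
      linarith
    linarith
  rw [h3] at h8
  linarith

/-- There are no almost isometric copies of `ℓ₁²` in `X_t`. -/
theorem no_l1 {t : ℝ} (ht : 0 < t) : ∃ ε : ℝ, 0 < ε ∧ ∀ u v : L2,
    ¬ ∀ α β : ℝ, (1 - ε) * (|α| + |β|) ≤ ‖jt t (α • u + β • v)‖ ∧
      ‖jt t (α • u + β • v)‖ ≤ (1 + ε) * (|α| + |β|) := by
  obtain ⟨δ, hδ⟩ : ∃ δ : ℝ, δ = 1 / (100 * (1 + t) ^ 2) := ⟨_, rfl⟩
  have hδ0 : 0 < δ := by rw [hδ]; positivity
  refine ⟨δ ^ 2, by positivity, fun u v h => ?_⟩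
  have hu := h 1 0
  have hv := h 0 1
  have hp := h 1 δ
  have hm := h 1 (-δ)
  simp only [one_smul, zero_smul, add_zero, zero_add, abs_one, abs_zero, mul_one, abs_neg,
    abs_of_pos hδ0, neg_smul] at hu hv hp hm
  rw [norm_jt] at hu hv hp hm
  have hLp : t * (u + δ • v : L2) 0 = t * u 0 + δ * (t * v 0) := by
    simp only [lp.coeFn_add, lp.coeFn_smul, Pi.add_apply, Pi.smul_apply, smul_eq_mul]; ring
  have hLm : t * (u + -(δ • v) : L2) 0 = t * u 0 - δ * (t * v 0) := by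
    simp only [lp.coeFn_add, lp.coeFn_neg, lp.coeFn_smul, Pi.add_apply, Pi.neg_apply,
      Pi.smul_apply, smul_eq_mul]; ring
  rw [hLp] at hp
  rw [hLm] at hm
  have hpar : ‖u + δ • v‖ ^ 2 + ‖u + -(δ • v)‖ ^ 2 = 2 * ‖u‖ ^ 2 + 2 * (δ * ‖v‖) ^ 2 := by
    have h1 := parallelogram_law_with_norm ℝ u (δ • v)
    rw [norm_smul, Real.norm_eq_abs, abs_of_pos hδ0] at h1
    rw [← sub_eq_add_neg]
    nlinarith
  exact scalar_aux ht hδ hu hv hp.1 hm.1 hpar (Lbd ht u) (Lbd ht v) (norm_nonneg _)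

/-- differentiability of the `ℓ_p²` norm along lines, away from `0` -/
theorem diff_lp {p : ℝ} (hp : 1 < p) {a b c d : ℝ} (h : a ≠ 0 ∨ b ≠ 0) :
    DifferentiableAt ℝ (fun x : ℝ => (|a + x * c| ^ p + |b + x * d| ^ p) ^ (1 / p)) 0 := by
  have h1 : ∀ a c : ℝ, DifferentiableAt ℝ (fun x : ℝ => |a + x * c| ^ p) 0 := by
    intro a c
    have h2 : DifferentiableAt ℝ (fun y : ℝ => |y| ^ p) (a + 0 * c) :=
      (hasDerivAt_abs_rpow (a + 0 * c) hp).differentiableAt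
    have h3 : DifferentiableAt ℝ (fun x : ℝ => a + x * c) 0 := by fun_prop
    exact DifferentiableAt.comp (f := fun x : ℝ => a + x * c) (0 : ℝ) h2 h3
  refine DifferentiableAt.rpow_const ((h1 a c).add (h1 b d)) (Or.inl ?_)
  simp only [zero_mul, add_zero]
  rcases h with h | h
  · have : 0 < |a| ^ p := Real.rpow_pos_of_pos (abs_pos.2 h) p
    have : 0 ≤ |b| ^ p := by positivity
    positivity
  · have : 0 < |b| ^ p := Real.rpow_pos_of_pos (abs_pos.2 h) p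
    have : 0 ≤ |a| ^ p := by positivity
    positivity

theorem no_lp {t : ℝ} (ht : 0 < t) {p : ℝ} (hp : 1 < p) (hp2 : p ≠ 2) (u v : L2)
    (h : ∀ α β : ℝ, ‖jt t (α • u + β • v)‖ = (|α| ^ p + |β| ^ p) ^ (1 / p)) : False := by
  have hp0 : p ≠ 0 := by linarith
  obtain ⟨l, hl⟩ : ∃ l : ℝ, l = t * u 0 := ⟨_, rfl⟩
  obtain ⟨m, hm⟩ : ∃ m : ℝ, m = t * v 0 := ⟨_, rfl⟩
  have hL : ∀ α β : ℝ, t * (α • u + β • v : L2) 0 = α * l + β * m := by
    intro α β
    rw [hl, hm]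
    simp only [lp.coeFn_add, lp.coeFn_smul, Pi.add_apply, Pi.smul_apply, smul_eq_mul]; ring
  by_cases h0 : m ≠ 0 ∨ -l ≠ 0
  · have hc : 0 < l ^ 2 + m ^ 2 := by
      rcases h0 with h0 | h0
      · positivity
      · have : l ≠ 0 := by simpa using h0
        positivity
    have hx0 : (m • u + (-l) • v : L2) ≠ 0 := by
      intro hx
      have h3 := h m (-l)
      rw [hx, map_zero, norm_zero] at h3
      have h4 : 0 < |m| ^ p + |-l| ^ p := by
        rcases h0 with h | h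
        · have : 0 < |m| ^ p := Real.rpow_pos_of_pos (abs_pos.2 h) p
          have : 0 ≤ |-l| ^ p := by positivity
          positivity
        · have : 0 < |-l| ^ p := Real.rpow_pos_of_pos (abs_pos.2 h) p
          have : 0 ≤ |m| ^ p := by positivity
          positivity
      exact (Real.rpow_pos_of_pos h4 (1 / p)).ne h3
    have hd := diff_lp hp (c := l) (d := m) h0
    have hd2 : DifferentiableAt ℝ (fun x : ℝ => ‖(m • u + (-l) • v : L2) + x • (l • u + m • v)‖) 0 := by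
      refine DifferentiableAt.norm ℝ (by fun_prop) ?_
      simpa using hx0
    have hd3 := hd.sub hd2
    have heq : (fun x : ℝ => (|m + x * l| ^ p + |-l + x * m| ^ p) ^ (1 / p) -
        ‖(m • u + (-l) • v : L2) + x • (l • u + m • v)‖) = fun x => (l ^ 2 + m ^ 2) * |x| := by
      funext x
      have h5 : (m • u + (-l) • v : L2) + x • (l • u + m • v) =
          (m + x * l) • u + (-l + x * m) • v := by module
      rw [h5, ← h, norm_jt, hL]
      have h6 : (m + x * l) * l + (-l + x * m) * m = (l ^ 2 + m ^ 2) * x := by ring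
      rw [h6, abs_mul, abs_of_pos hc]; ring
    have hd4 : DifferentiableAt ℝ (fun x : ℝ => (l ^ 2 + m ^ 2) * |x|) 0 := by
      rw [← heq]; exact hd3
    have hd5 := hd4.const_mul (1 / (l ^ 2 + m ^ 2))
    have heq2 : (fun x : ℝ => 1 / (l ^ 2 + m ^ 2) * ((l ^ 2 + m ^ 2) * |x|)) = fun x => |x| := by
      funext x; field_simp
    rw [heq2] at hd5
    exact not_differentiableAt_abs_zero hd5
  · push Not at h0
    have hl0 : l = 0 := by simpa using h0.2
    have hm0 : m = 0 := h0.1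
    have hn : ∀ α β : ℝ, ‖(α • u + β • v : L2)‖ = (|α| ^ p + |β| ^ p) ^ (1 / p) := by
      intro α β
      rw [← h, norm_jt, hL, hl0, hm0]; simp
    have h10 := hn 1 0
    have h01 := hn 0 1
    have h11 := hn 1 1
    have h1m := hn 1 (-1)
    simp only [one_smul, zero_smul, add_zero, zero_add, abs_one, abs_zero, Real.one_rpow,
      Real.zero_rpow hp0, abs_neg, neg_smul, ← sub_eq_add_neg] at h10 h01 h11 h1m
    have hpar := parallelogram_law_with_norm ℝ u v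
    rw [h10, h01, h11, h1m] at hpar
    have h7 : ((1 + 1 : ℝ) ^ (1 / p)) * ((1 + 1 : ℝ) ^ (1 / p)) = 2 := by nlinarith
    have h8 : ((1 + 1 : ℝ) ^ (1 / p)) * ((1 + 1 : ℝ) ^ (1 / p)) = (2 : ℝ) ^ (2 / p) := by
      rw [← Real.rpow_add (by norm_num)]
      norm_num
      congr 1
      ring
    rw [h8] at h7
    have h9 : (2 : ℝ) ^ (2 / p) = (2 : ℝ) ^ (1 : ℝ) := by rw [h7, Real.rpow_one]
    have h10 : 2 / p = 1 := by
      have hh := congrArg Real.log h9
      rw [Real.log_rpow (by norm_num), Real.log_rpow (by norm_num)] at hh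
      have hlog : Real.log 2 ≠ 0 := (Real.log_pos (by norm_num)).ne'
      exact mul_right_cancel₀ hlog hh
    rw [div_eq_one_iff_eq hp0] at h10
    exact hp2 h10.symm

/-- the parallelogram law fails in `X_t` -/
theorem not_parallelogram {t : ℝ} (ht : 0 < t)
    (h : ∀ x y : Xt t, ‖x + y‖ ^ 2 + ‖x - y‖ ^ 2 = 2 * ‖x‖ ^ 2 + 2 * ‖y‖ ^ 2) : False := by
  have h1 := h (jt t (e 0)) (jt t (e 1))
  rw [← map_add, ← map_sub, norm_jt, norm_jt, norm_jt, norm_jt, norm_e, norm_e] at h1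
  have c0 : (e 0 : L2) 0 = 1 := by rw [e_apply]; simp
  have c1 : (e 1 : L2) 0 = 0 := by rw [e_apply]; simp
  have cp : (e 0 + e 1 : L2) 0 = 1 := by
    rw [lp.coeFn_add, Pi.add_apply, c0, c1]; norm_num
  have cm : (e 0 - e 1 : L2) 0 = 1 := by
    rw [lp.coeFn_sub, Pi.sub_apply, c0, c1]; norm_num
  have i1 : inner ℝ (e 0) (e 1) = (0 : ℝ) := by rw [inner_e, e_apply]; simp
  have np : ‖e 0 + e 1‖ ^ 2 = 2 := by
    rw [@norm_add_sq_real, i1, norm_e, norm_e]; norm_num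
  have nm : ‖e 0 - e 1‖ ^ 2 = 2 := by
    rw [@norm_sub_sq_real, i1, norm_e, norm_e]; norm_num
  rw [c0, c1, cp, cm] at h1
  simp only [mul_one, mul_zero, abs_zero, add_zero, abs_of_pos ht] at h1
  have p1 : 1 < ‖e 0 + e 1‖ := by nlinarith [norm_nonneg (e 0 + e 1)]
  have p2 : 1 < ‖e 0 - e 1‖ := by nlinarith [norm_nonneg (e 0 - e 1)]
  nlinarith

end Pool.Agent.H230R3.GD
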