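import Pool.Agent.H230R3.GD.Codes

set_option autoImplicit false
set_option linter.unusedSectionVars false
set_option linter.unusedVariables false
open Set Metric Filter Topology

namespace Pool.Agent.H230R3.GD

/-- quadratic form restricted to a finite set of coordinates -/
noncomputable def FQ (G : ℕ → ℕ → ℝ) (S : Finset ℕ) (y : ℕ → ℝ) : ℝ :=
  ∑ i ∈ S, ∑ j ∈ S, y i * y j * G i j

/-- linear form restricted to a finite set of coordinates -/
noncomputable def FL (φ : ℕ → ℝ) (S : Finset ℕ) (y : ℕ → ℝ) : ℝ := ∑ i ∈ S, y i * φ i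

theorem Q_eq_FQ (G : ℕ → ℕ → ℝ) (v : V) (S : Finset ℕ) (h : v.support ⊆ S) :
    Q G v = FQ G S fun i => (v i : ℝ) := by
  unfold Q FQ
  rw [Finsupp.sum_of_support_subset v h _ (by intro i _; simp)]
  refine Finset.sum_congr rfl fun i _ => ?_
  rw [Finsupp.sum_of_support_subset v h _ (by intro j _; simp)]

theorem Lf_eq_FL (φ : ℕ → ℝ) (v : V) (S : Finset ℕ) (h : v.support ⊆ S) :
    Lf φ v = FL φ S fun i => (v i : ℝ) := by
  unfold Lf FL
  rw [Finsupp.sum_of_support_subset v h _ (by intro i _; simp)]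

theorem real_ineq {G : ℕ → ℕ → ℝ} {φ : ℕ → ℝ} {s : ℝ} (hs : 0 ≤ s) (hpos : ∀ v : V, 0 ≤ Q G v)
    (hφ : ∀ v : V, |Lf φ v| ≤ s * Real.sqrt (Q G v)) (S : Finset ℕ) (y : ℕ → ℝ) :
    0 ≤ FQ G S y ∧ FL φ S y ^ 2 ≤ s ^ 2 * FQ G S y := by
  classical
  have hrat : ∀ q : ℕ → ℚ, 0 ≤ FQ G S (fun i => (q i : ℝ)) ∧
      FL φ S (fun i => (q i : ℝ)) ^ 2 ≤ s ^ 2 * FQ G S (fun i => (q i : ℝ)) := by
    intro q
    let v : V := Finsupp.onFinset S (fun i => if i ∈ S then q i else 0) (by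
      intro i hi; by_contra h; simp [h] at hi)
    have hv : v.support ⊆ S := Finsupp.support_onFinset_subset
    have hvi : ∀ i ∈ S, (v i : ℝ) = q i := fun i hi => by simp [v, hi]
    have e1 : FQ G S (fun i => (q i : ℝ)) = Q G v := by
      rw [Q_eq_FQ G v S hv]
      unfold FQ
      refine Finset.sum_congr rfl fun i hi => Finset.sum_congr rfl fun j hj => ?_
      simp only [hvi i hi, hvi j hj]
    have e2 : FL φ S (fun i => (q i : ℝ)) = Lf φ v := by
      rw [Lf_eq_FL φ v S hv]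
      unfold FL
      refine Finset.sum_congr rfl fun i hi => ?_
      simp only [hvi i hi]
    rw [e1, e2]
    refine ⟨hpos v, ?_⟩
    have h1 := hφ v
    have h2 : |Lf φ v| ^ 2 ≤ (s * Real.sqrt (Q G v)) ^ 2 := pow_le_pow_left₀ (abs_nonneg _) h1 2
    rw [sq_abs, mul_pow, Real.sq_sqrt (hpos v)] at h2
    exact h2
  have hcl : IsClosed {y : ℕ → ℝ | 0 ≤ FQ G S y ∧ FL φ S y ^ 2 ≤ s ^ 2 * FQ G S y} := by
    have c1 : Continuous fun y : ℕ → ℝ => FQ G S y := by unfold FQ; fun_prop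
    have c2 : Continuous fun y : ℕ → ℝ => FL φ S y := by unfold FL; fun_prop
    exact (isClosed_le continuous_const c1).inter (isClosed_le (c2.pow 2) (continuous_const.mul c1))
  have hd : DenseRange (Pi.map fun (_ : ℕ) (q : ℚ) => (q : ℝ)) :=
    DenseRange.piMap fun _ => Rat.denseRange_cast
  have hsub : Set.range (Pi.map fun (_ : ℕ) (q : ℚ) => (q : ℝ)) ⊆
      {y : ℕ → ℝ | 0 ≤ FQ G S y ∧ FL φ S y ^ 2 ≤ s ^ 2 * FQ G S y} := by
    rintro _ ⟨q, rfl⟩
    exact hrat q
  exact hcl.closure_subset_iff.2 hsub (hd y)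

/-- the inner product on finitely supported real sequences -/
noncomputable def core {G : ℕ → ℕ → ℝ} (hsym : ∀ i j, G i j = G j i)
    (hpos : ∀ v : V, 0 ≤ Q G v) : PreInnerProductSpace.Core ℝ (ℕ →₀ ℝ) where
  inner x y := x.sum fun i a => y.sum fun j c => a * c * G i j
  conj_inner_symm x y := by
    simp only [conj_trivial]
    rw [Finsupp.sum_comm]
    refine Finsupp.sum_congr fun j _ => Finsupp.sum_congr fun i _ => ?_
    rw [hsym]; ring
  re_inner_nonneg x := by
    have h := (real_ineq (φ := 0) (s := 0) le_rfl hpos (by intro v; simp [Lf]) x.support x).1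
    simpa [FQ, Finsupp.sum] using h
  add_left x y z := by
    rw [Finsupp.sum_add_index']
    · intro i; simp
    · intro i a b
      rw [← Finsupp.sum_add]
      refine Finsupp.sum_congr fun j _ => ?_
      ring
  smul_left x y r := by
    rw [Finsupp.sum_smul_index (by intro i; simp)]
    simp only [conj_trivial, Finsupp.mul_sum]
    refine Finsupp.sum_congr fun i _ => Finsupp.sum_congr fun j _ => ?_
    ring

theorem realize {G : ℕ → ℕ → ℝ} {φ : ℕ → ℝ} {s : ℝ} (hs : 0 ≤ s) (hsym : ∀ i j, G i j = G j i)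
    (hpos : ∀ v : V, 0 ≤ Q G v) (hφ : ∀ v : V, |Lf φ v| ≤ s * Real.sqrt (Q G v)) :
    ∃ (H : Type) (_ : NormedAddCommGroup H) (_ : InnerProductSpace ℝ H) (_ : CompleteSpace H)
      (T : V →+ H) (w : H), DenseRange T ∧ (∀ v, ‖T v‖ = Real.sqrt (Q G v)) ∧
      (∀ v, inner ℝ w (T v) = Lf φ v) ∧ ‖w‖ ≤ s := by
  classical
  let cr : PreInnerProductSpace.Core ℝ (ℕ →₀ ℝ) := core hsym hpos
  let i1 : SeminormedAddCommGroup (ℕ →₀ ℝ) :=
    InnerProductSpace.Core.toSeminormedAddCommGroup (𝕜 := ℝ)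
  let i2 : InnerProductSpace ℝ (ℕ →₀ ℝ) := .ofCore cr
  have hin : ∀ x y : ℕ →₀ ℝ, inner ℝ x y = x.sum fun i a => y.sum fun j c => a * c * G i j :=
    fun x y => rfl
  have hnorm : ∀ x : ℕ →₀ ℝ, ‖x‖ ^ 2 = FQ G x.support x := fun x => by
    rw [← real_inner_self_eq_norm_sq, hin]; rfl
  let ι : V →+ (ℕ →₀ ℝ) := Finsupp.mapRange.addMonoidHom (Rat.castHom ℝ).toAddMonoidHom
  have hι : ∀ v : V, ‖ι v‖ = Real.sqrt (Q G v) := by
    intro v
    rw [← Real.sqrt_sq (norm_nonneg (ι v)), ← real_inner_self_eq_norm_sq, hin]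
    congr 1
    simp only [ι, Finsupp.mapRange.addMonoidHom_apply]
    rw [Finsupp.sum_mapRange_index (by intro i; simp)]
    unfold Q
    refine Finsupp.sum_congr fun i _ => ?_
    rw [Finsupp.sum_mapRange_index (by intro i; simp)]
    rfl
  have hιs : ∀ i (q : ℚ), ι (Finsupp.single i q) = Finsupp.single i (q : ℝ) := by
    intro i q; simp [ι]
  have happ : ∀ x : ℕ →₀ ℝ, ∀ ε > 0, ∃ v : V, ‖x - ι v‖ < ε := by
    intro x
    induction x using Finsupp.induction_linear with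
    | zero => intro ε hε; exact ⟨0, by simpa using hε⟩
    | add f g hf hg =>
      intro ε hε
      obtain ⟨v1, h1⟩ := hf (ε / 2) (by linarith)
      obtain ⟨v2, h2⟩ := hg (ε / 2) (by linarith)
      refine ⟨v1 + v2, ?_⟩
      have : f + g - ι (v1 + v2) = (f - ι v1) + (g - ι v2) := by rw [map_add]; abel
      rw [this]
      exact (norm_add_le _ _).trans_lt (by linarith)
    | single i a =>
      intro ε hε
      have hc : Tendsto (fun b : ℝ => ‖(Finsupp.single i (a - b) : ℕ →₀ ℝ)‖) (𝓝 a) (𝓝 0) := by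
        have h1 : (fun b : ℝ => ‖(Finsupp.single i (a - b) : ℕ →₀ ℝ)‖) =
            fun b => |a - b| * ‖(Finsupp.single i 1 : ℕ →₀ ℝ)‖ := by
          funext b
          rw [← Real.norm_eq_abs, ← norm_smul, Finsupp.smul_single, smul_eq_mul, mul_one]
        rw [h1]
        have h2 : Tendsto (fun b : ℝ => |a - b| * ‖(Finsupp.single i 1 : ℕ →₀ ℝ)‖) (𝓝 a)
            (𝓝 (|a - a| * ‖(Finsupp.single i 1 : ℕ →₀ ℝ)‖)) :=
          Continuous.tendsto (by fun_prop) a
        simpa using h2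
      have h3 := hc.eventually (gt_mem_nhds hε)
      obtain ⟨U, hU, hUo, haU⟩ := _root_.mem_nhds_iff.1 h3
      obtain ⟨q, hq⟩ := (Rat.denseRange_cast (𝕜 := ℝ)).exists_mem_open hUo ⟨a, haU⟩
      refine ⟨Finsupp.single i q, ?_⟩
      rw [hιs, ← Finsupp.single_sub]
      exact hU hq
  let H := UniformSpace.Completion (ℕ →₀ ℝ)
  let T : V →+ H := (UniformSpace.Completion.toCompl (α := ℕ →₀ ℝ)).comp ι
  have hT : ∀ v, T v = ((ι v : ℕ →₀ ℝ) : H) := fun v => rfl
  have hTn : ∀ v, ‖T v‖ = Real.sqrt (Q G v) := fun v => by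
    rw [hT, UniformSpace.Completion.norm_coe, hι]
  have hTd : DenseRange T := by
    rw [Metric.denseRange_iff]
    intro h r hr
    obtain ⟨x, hx⟩ := Metric.denseRange_iff.1 (UniformSpace.Completion.denseRange_coe (α := ℕ →₀ ℝ)) h
      (r / 2) (by linarith)
    obtain ⟨v, hv⟩ := happ x (r / 2) (by linarith)
    refine ⟨v, ?_⟩
    have h1 : dist (x : H) (T v) = ‖x - ι v‖ := by
      rw [hT, dist_eq_norm, ← UniformSpace.Completion.coe_sub, UniformSpace.Completion.norm_coe]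
    linarith [dist_triangle h (x : H) (T v)]
  -- the functional
  let ℓ : (ℕ →₀ ℝ) →ₗ[ℝ] ℝ := Finsupp.linearCombination ℝ φ
  have hℓ : ∀ x : ℕ →₀ ℝ, ℓ x = FL φ x.support x := fun x => by
    simp only [ℓ, Finsupp.linearCombination_apply, FL, Finsupp.sum, smul_eq_mul]
  have hℓb : ∀ x : ℕ →₀ ℝ, ‖ℓ x‖ ≤ s * ‖x‖ := by
    intro x
    have h1 := (real_ineq hs hpos hφ x.support x).2
    rw [← hℓ, ← hnorm, ← mul_pow] at h1
    rw [Real.norm_eq_abs]
    exact abs_le_of_sq_le_sq h1 (by positivity)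
  let F : H →L[ℝ] ℝ := ℓ.extendOfNorm (UniformSpace.Completion.toComplₗᵢ (𝕜 := ℝ) (E := ℕ →₀ ℝ)).toLinearMap
  have hF : ∀ x : ℕ →₀ ℝ, F (x : H) = ℓ x := fun x => by
    have := LinearMap.extendOfNorm_eq (f := ℓ)
      (e := (UniformSpace.Completion.toComplₗᵢ (𝕜 := ℝ) (E := ℕ →₀ ℝ)).toLinearMap)
      UniformSpace.Completion.denseRange_coe ⟨s, fun x => by
        have := hℓb x
        simpa using this⟩ x
    exact this
  have hFb : ∀ h : H, F h ≤ s * ‖h‖ := by
    intro h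
    induction h using UniformSpace.Completion.induction_on with
    | hp => exact isClosed_le F.continuous (by fun_prop)
    | ih x =>
      rw [hF, UniformSpace.Completion.norm_coe]
      exact (le_abs_self _).trans (hℓb x)
  refine ⟨H, inferInstance, inferInstance, inferInstance, T, (InnerProductSpace.toDual ℝ H).symm F,
    hTd, hTn, fun v => ?_, ?_⟩
  · rw [InnerProductSpace.toDual_symm_apply, hT, hF, hℓ]
    have h1 : Lf φ v = FL φ (ι v).support fun i => (v i : ℝ) := by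
      refine Lf_eq_FL φ v _ ?_
      intro i hi
      rw [Finsupp.mem_support_iff] at hi ⊢
      simpa [ι] using hi
    rw [h1]
    rfl
  · set w := (InnerProductSpace.toDual ℝ H).symm F with hw
    have h1 : ‖w‖ ^ 2 = F w := by
      rw [← real_inner_self_eq_norm_sq]
      conv_lhs => rw [hw]
      rw [InnerProductSpace.toDual_symm_apply]
    have h2 := hFb w
    rw [← h1] at h2
    by_contra hcon
    push Not at hcon
    have h3 : 0 < ‖w‖ := lt_of_le_of_lt hs hcon
    nlinarith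

end Pool.Agent.H230R3.GD
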