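import Pool.Agent.H230R3.GD.LpEmb

set_option autoImplicit false
set_option linter.unusedSectionVars false
set_option linter.unusedVariables false
open Set Metric Filter Topology MeasureTheory
open scoped ENNReal

namespace Pool.Agent.H230R3.GD

/-- The space coded by `μ` is unique up to linear isometry. -/
theorem codes_unique {μ : V → ℝ} {X Y : Type*} [NormedAddCommGroup X] [NormedSpace ℝ X]
    [NormedAddCommGroup Y] [NormedSpace ℝ Y] (hX : Codes μ X) (hY : Codes μ Y) :
    Nonempty (X ≃ₗᵢ[ℝ] Y) := by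
  obtain ⟨cX, S, hS, dS⟩ := hX
  obtain ⟨cY, T, hT, dT⟩ := hY
  let pm : PseudoMetricSpace V := PseudoMetricSpace.induced S inferInstance
  have iS : Isometry S := fun a b => rfl
  have iT : Isometry T := by
    refine Isometry.of_dist_eq fun a b => ?_
    rw [dist_eq_norm, ← map_sub, hT]
    have : dist a b = dist (S a) (S b) := rfl
    rw [this, dist_eq_norm, ← map_sub, hS]
  let pX : AbstractCompletion V :=
    { space := X, coe := S, uniformStruct := inferInstance, complete := cX,
      separation := inferInstance, isUniformInducing := iS.isUniformInducing, dense := dS }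
  let pY : AbstractCompletion V :=
    { space := Y, coe := T, uniformStruct := inferInstance, complete := cY,
      separation := inferInstance, isUniformInducing := iT.isUniformInducing, dense := dT }
  let F : X ≃ᵤ Y := pX.compareEquiv pY
  have hF : ∀ v, F (S v) = T v := fun v => pX.compare_coe pY v
  have hFc : Continuous F := F.continuous
  have hadd : ∀ x y : X, F (x + y) = F x + F y := by
    intro x y
    induction x using dS.induction_on with
    | hp => exact isClosed_eq (by fun_prop) (by fun_prop)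
    | ih v =>
      induction y using dS.induction_on with
      | hp => exact isClosed_eq (by fun_prop) (by fun_prop)
      | ih w => rw [← map_add, hF, hF, hF, map_add]
  have hnorm : ∀ x : X, ‖F x‖ = ‖x‖ := by
    intro x
    induction x using dS.induction_on with
    | hp => exact isClosed_eq (by fun_prop) (by fun_prop)
    | ih v => rw [hF, hT, hS]
  let F0 : X →+ Y := AddMonoidHom.mk' F hadd
  let F1 : X →L[ℝ] Y := F0.toRealLinearMap hFc
  exact ⟨LinearIsometryEquiv.ofSurjective ⟨F1.toLinearMap, hnorm⟩ F.surjective⟩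

/-- The extension property which characterises the Gurarii space among separable Banach spaces. -/
def IsGurarii (X : Type) [NormedAddCommGroup X] [NormedSpace ℝ X] : Prop :=
  ∀ (E F : Type) [NormedAddCommGroup E] [NormedSpace ℝ E] [FiniteDimensional ℝ E]
    [NormedAddCommGroup F] [NormedSpace ℝ F] [FiniteDimensional ℝ F]
    (ι : E →ₗᵢ[ℝ] F) (T : E →ₗᵢ[ℝ] X) (ε : ℝ), 0 < ε →
    ∃ T' : F →ₗ[ℝ] X, (∀ x, T' (ι x) = T x) ∧
      ∀ y, (1 - ε) * ‖y‖ ≤ ‖T' y‖ ∧ ‖T' y‖ ≤ (1 + ε) * ‖y‖

theorem not_isGurarii {t : ℝ} (ht : 0 < t) : ¬ IsGurarii (Xt t) := by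
  intro h
  obtain ⟨ε, hε, hno⟩ := no_l1 ht
  let F : Type := WithLp 1 (ℝ × ℝ)
  have : FiniteDimensional ℝ (WithLp 1 (ℝ × ℝ)) := 
    LinearEquiv.finiteDimensional (WithLp.linearEquiv 1 ℝ (ℝ × ℝ)).symm
  obtain ⟨T', -, hT'⟩ := h PUnit (WithLp 1 (ℝ × ℝ)) ⟨0, fun x => by simp [Subsingleton.elim x 0]⟩
    ⟨0, fun x => by simp [Subsingleton.elim x 0]⟩ ε hε
  obtain ⟨u, hu⟩ := jt_surjective t (T' (WithLp.toLp 1 (1, 0)))
  obtain ⟨v, hv⟩ := jt_surjective t (T' (WithLp.toLp 1 (0, 1)))
  refine hno u v fun α β => ?_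
  have h1 : jt t (α • u + β • v) = T' (WithLp.toLp 1 (α, β)) := by
    rw [map_add, map_smul, map_smul, hu, hv, ← map_smul, ← map_smul, ← map_add]
    congr 1
    rw [← WithLp.toLp_smul, ← WithLp.toLp_smul, ← WithLp.toLp_add]
    simp
  have h2 : ‖(WithLp.toLp 1 (α, β) : WithLp 1 (ℝ × ℝ))‖ = |α| + |β| := by
    rw [WithLp.prod_norm_eq_of_L1]
    rfl
  rw [h1, ← h2]
  exact hT' _

end Pool.Agent.H230R3.GD
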